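import Pool.Agent.Helper94.UEC.Sim

/-!
Undecidability of the unique equality continuation property.
-/

namespace Pool.Agent.Helper94.UEC

open Turing StateTransition Function Denumerable

/-- a universal program -/
theorem exists_univ : ∃ c : ToPartrec.Code, ∀ n : ℕ,
    (c.eval [n]).Dom ↔ ((ofNat Nat.Partrec.Code n).eval 0).Dom := by
  have h1 : Partrec (fun n : ℕ => (ofNat Nat.Partrec.Code n).eval 0) :=
    Nat.Partrec.Code.eval_part.comp (Computable.ofNat Nat.Partrec.Code) (Computable.const 0)
  have h2 := Nat.Partrec'.part_iff₁.mpr h1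
  obtain ⟨c, hc⟩ := ToPartrec.Code.exists_code h2
  refine ⟨c, fun n => ?_⟩
  have h3 := hc ⟨[n], rfl⟩
  have h4 : c.eval [n] = pure <$> ((ofNat Nat.Partrec.Code n).eval 0) := h3
  rw [h4]
  rfl

section digits

open PartrecToTM2

theorem trNat_bit0 {n : ℕ} (hn : n ≠ 0) : trNat (2 * n) = Γ'.bit0 :: trNat n := by
  unfold trNat
  have h1 : ((2 * n : ℕ) : Num) = Num.bit0 (n : Num) := by
    have := Num.ofNat'_bit false n
    rw [Num.ofNat'_eq, Num.ofNat'_eq] at this
    simpa [Nat.bit] using this
  rw [h1]
  cases h : (n : Num) with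
  | zero =>
    exfalso
    apply hn
    have := congrArg (fun m : Num => (m : ℕ)) h
    simpa using this
  | pos p => rfl

theorem trNat_bit1 (n : ℕ) : trNat (2 * n + 1) = Γ'.bit1 :: trNat n := by
  unfold trNat
  have h1 : ((2 * n + 1 : ℕ) : Num) = Num.bit1 (n : Num) := by
    have := Num.ofNat'_bit true n
    rw [Num.ofNat'_eq, Num.ofNat'_eq] at this
    simpa [Nat.bit] using this
  rw [h1]
  cases h : (n : Num) with
  | zero => rfl
  | pos p => rfl

theorem digits_primrec (e : Γ' → ℕ) : Primrec fun n : ℕ => (trNat n).map e := by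
  let f : Unit → ℕ → List ℕ := fun _ n => (trNat n).map e
  let g : Unit → List (List ℕ) → Option (List ℕ) := fun _ l =>
    if l.length = 0 then some [] else
      (l[l.length / 2]?).map fun r => (if l.length % 2 = 0 then e Γ'.bit0 else e Γ'.bit1) :: r
  have hg : Primrec₂ g := by
    have hlen : Primrec fun p : Unit × List (List ℕ) => p.2.length :=
      Primrec.list_length.comp Primrec.snd
    refine Primrec.ite (PrimrecRel.comp Primrec.eq hlen (Primrec.const 0)) (Primrec.const (some [])) ?_
    refine Primrec.option_map (Primrec.list_getElem?.comp Primrec.snd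
      (Primrec.nat_div.comp hlen (Primrec.const 2))) ?_
    refine Primrec.list_cons.comp ?_ Primrec.snd
    refine Primrec.ite (PrimrecRel.comp Primrec.eq (Primrec.nat_mod.comp (hlen.comp Primrec.fst)
      (Primrec.const 2)) (Primrec.const 0)) (Primrec.const _) (Primrec.const _)
  have hf : Primrec₂ f := by
    refine Primrec.nat_strong_rec f hg ?_
    intro _ n
    simp only [g, f, List.length_map, List.length_range]
    rcases Nat.eq_zero_or_pos n with rfl | hn
    · simp
    · rw [if_neg hn.ne']
      have h1 : n / 2 < n := Nat.div_lt_self hn (by norm_num)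
      rw [List.getElem?_map, List.getElem?_range h1]
      simp only [Option.map_some, Option.some.injEq]
      split_ifs with h2
      · have h3 : n = 2 * (n / 2) := by omega
        conv_rhs => rw [h3, trNat_bit0 (by omega)]
        rfl
      · have h3 : n = 2 * (n / 2) + 1 := by omega
        conv_rhs => rw [h3, trNat_bit1]
        rfl
  exact hf.comp (Primrec.const ()) Primrec.id

end digits

theorem isUEC_iff {ι : Type} {N : ℕ} (e : Fin N ≃ ι) (t : Option ι → List ℕ × List ℕ) :
    IsUEC (t none :: List.ofFn fun i => t (some (e i))) ↔ UECF t := by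
  set L := t none :: List.ofFn fun i => t (some (e i)) with hL
  have hlen : L.length = N + 1 := by simp [hL]
  let E : Fin L.length ≃ Option ι :=
    (finCongr hlen).trans ((finSuccEquiv N).trans (Equiv.optionCongr e))
  have hE : ∀ i, L.get i = t (E i) := by
    rintro ⟨i, hi⟩
    cases i with
    | zero => rfl
    | succ i =>
      have hi' : i < N := by omega
      have h1 : E ⟨i + 1, hi⟩ = some (e ⟨i, hi'⟩) := by
        have h2 : finCongr hlen ⟨i + 1, hi⟩ = Fin.succ ⟨i, hi'⟩ := rfl
        simp only [E, Equiv.trans_apply, h2, finSuccEquiv_succ]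
        rfl
      rw [h1]
      simp [hL]
  have h1 : IsUEC L ↔ UECF (fun i => t (E i)) := by
    unfold IsUEC
    have : (fun i : Fin L.length => L.get i) = fun i => t (E i) := funext hE
    rw [this]
  rw [h1]
  constructor
  · exact UECF_equiv E t
  · intro h
    refine UECF_equiv E.symm (fun i => t (E i)) ?_
    have : (fun a => t (E (E.symm a))) = t := by funext a; simp
    rw [this]; exact h

open PartrecToTM2 in
/-- The unique equality continuation property is undecidable. -/
theorem undecidable : ¬ ComputablePred IsUEC := by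
  classical
  intro hcomp
  obtain ⟨c, hc⟩ := exists_univ
  -- the simulating queue machine
  let M : Λ' → St K' Γ' Λ' (Option Γ') := PartrecToTM2.tr
  let S : Finset Λ' := codeSupp c Cont'.halt
  have hS : ∀ l ∈ S, TM2.SupportsStmt S (M l) := (tr_supports c Cont'.halt).2
  have hS0 : trNormal c Cont'.halt ∈ S := (tr_supports c Cont'.halt).1
  let T : St K' Γ' Λ' (Option Γ') → Prop := fun s => ∃ l ∈ S, s ∈ TM2.stmts₁ (M l)
  let Q := {q : QS K' Γ' Λ' (Option Γ') // FS T q}
  have hQ : Finite Q := FS_finite (T_finite M S)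
  let δ : Q → K' ⊕ Γ' → Option (List (K' ⊕ Γ') × Q) := fun q x =>
    match h : dl M q.1 x with
    | none => none
    | some p => some (p.1, ⟨p.2, FS_closed M hS q.2 (v := p.1) (by rw [h])⟩)
  have hδ : ∀ (q : Q) x, dl M q.1 x = (δ q x).map (fun p => (p.1, p.2.1)) := by
    intro q x
    simp only [δ]
    split
    · next h => rw [h]; rfl
    · next p h => exact h
  let q0 : Q := ⟨.run (M (trNormal c Cont'.halt)) none, ⟨_, hS0, TM2.stmts₁_self⟩⟩
  let ks : List K' := [K'.main, K'.rev, K'.aux, K'.stack]
  have hnd : ks.Nodup := by decide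
  have hall : ∀ k, k ∈ ks := by intro k; cases k <;> simp [ks]
  have hks : ks ≠ [] := by simp [ks]
  -- letters
  have hK : Finite K' := Finite.of_surjective (fun i : Fin 4 => ks.get i) (by
    intro k
    obtain ⟨i, hi⟩ := List.get_of_mem (hall k)
    exact ⟨i, hi⟩)
  obtain ⟨m, ⟨ee⟩⟩ := Finite.exists_equiv_fin (Q ⊕ (K' ⊕ Γ'))
  let ℓ : Q ⊕ (K' ⊕ Γ') → ℕ := fun z => (ee z : ℕ) + 2
  have hℓ : Function.Injective ℓ := by
    intro a b hab
    apply ee.injective
    apply Fin.ext
    simp only [ℓ] at hab
    omega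
  have hℓ2 : ∀ z, 2 ≤ ℓ z := fun z => Nat.le_add_left 2 _
  -- the index set of the rules
  obtain ⟨N, ⟨e⟩⟩ := Finite.exists_equiv_fin (Idx δ)
  let st : ℕ → List (K' ⊕ Γ') := fun n => canon ks (K'.elim (trList [n]) [] [] [])
  let inst : ℕ → List (List ℕ × List ℕ) := fun n =>
    tile (rule δ ℓ) (word ℓ q0 (st n)) none ::
      List.ofFn fun i => tile (rule δ ℓ) (word ℓ q0 (st n)) (some (e.symm i))
  have key : ∀ n, IsUEC (inst n) ↔ ¬ ((ofNat Nat.Partrec.Code n).eval 0).Dom := by
    intro n
    show IsUEC (tile (rule δ ℓ) (word ℓ q0 (st n)) none ::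
      List.ofFn fun i => tile (rule δ ℓ) (word ℓ q0 (st n)) (some (e.symm i))) ↔ _
    rw [isUEC_iff e.symm, uec_iff hℓ hℓ2, not_iff_not, ← hc n]
    · rw [restrict_dom (dl M) (FS T) δ hδ q0 (st n)]
      have h1 := sim_dom hnd hall hks M (trNormal c Cont'.halt) none (K'.elim (trList [n]) [] [] [])
      refine h1.trans ?_
      have h2 := PartrecToTM2.tr_eval c [n]
      have h3 : eval (TM2.step M) ⟨some (trNormal c Cont'.halt), none, K'.elim (trList [n]) [] [] []⟩ =
        PartrecToTM2.halt <$> c.eval [n] := h2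
      rw [h3]
      rfl
    · intro c' hr hempty
      have h1 := mem_of_reaches (δ := δ) (s := Sum.inl K'.main) (fun q v q' h => by
        have h2 := hδ q (Sum.inl K'.main)
        rw [h] at h2
        exact dl_inl M _ _ _ _ h2) hr (by simp [st, canon, ks])
      rw [hempty] at h1
      exact absurd h1 (by simp)
  -- computability of the reduction
  have hinst : Computable inst := by
    refine Primrec.to_comp ?_
    have hfix : ∀ n, inst n = (([1, 0], 1 :: gs (ℓ (Sum.inl q0) :: (ℓ (Sum.inr (Sum.inl K'.main)) ::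
        ((trNat n).map (fun g => ℓ (Sum.inr (Sum.inr g))) ++ ([ℓ (Sum.inr (Sum.inr Γ'.cons)),
          ℓ (Sum.inr (Sum.inl K'.rev)), ℓ (Sum.inr (Sum.inl K'.aux)), ℓ (Sum.inr (Sum.inl K'.stack))] : List ℕ))))) ::
        List.ofFn fun i => (hs (rule δ ℓ (e.symm i)).1, gs (rule δ ℓ (e.symm i)).2)) := by
      intro n
      simp [inst, tile, word, st, canon, ks, Function.comp_def]
    have h1 : Primrec fun n : ℕ => (ℓ (Sum.inl q0) :: (ℓ (Sum.inr (Sum.inl K'.main)) ::
        ((trNat n).map (fun g => ℓ (Sum.inr (Sum.inr g))) ++ ([ℓ (Sum.inr (Sum.inr Γ'.cons)),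
          ℓ (Sum.inr (Sum.inl K'.rev)), ℓ (Sum.inr (Sum.inl K'.aux)), ℓ (Sum.inr (Sum.inl K'.stack))] : List ℕ)))) :=
      Primrec.list_cons.comp (Primrec.const _) (Primrec.list_cons.comp (Primrec.const _)
        (Primrec.list_append.comp (digits_primrec _) (Primrec.const _)))
    have h2 : Primrec fun w : List ℕ => gs w := by
      refine Primrec.list_flatMap (f := fun w : List ℕ => w) (g := fun _ y => [0, y]) Primrec.id ?_
      exact Primrec.list_cons.comp (Primrec.const 0) (Primrec.list_cons.comp Primrec.snd (Primrec.const []))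
    refine Primrec.of_eq (Primrec.list_cons.comp (Primrec.pair (Primrec.const [1, 0])
      (Primrec.list_cons.comp (Primrec.const 1) (h2.comp h1))) (Primrec.const _)) (fun n => (hfix n).symm)
  -- conclusion
  have h1 : ComputablePred fun n : ℕ => IsUEC (inst n) := by
    obtain ⟨hdec, hcomp'⟩ := hcomp
    exact ⟨fun n => hdec (inst n), hcomp'.comp hinst⟩
  have h2 : ComputablePred fun n : ℕ => ((ofNat Nat.Partrec.Code n).eval 0).Dom :=
    h1.not.of_eq fun n => by rw [key n, not_not]
  have h3 : ComputablePred fun c : Nat.Partrec.Code => (c.eval 0).Dom := by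
    obtain ⟨hdec, hcomp'⟩ := h2
    have h4 := hcomp'.comp (Computable.encode (α := Nat.Partrec.Code))
    refine ⟨fun c => decidable_of_iff ((ofNat Nat.Partrec.Code (Encodable.encode c)).eval 0).Dom
      (by rw [ofNat_encode]), ?_⟩
    refine h4.of_eq fun c => ?_
    simp only [ofNat_encode]
    congr
  exact ComputablePred.halting_problem 0 h3

end Pool.Agent.Helper94.UEC
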