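import Mathlib

/-!
Unique equality continuation instances of the Post correspondence problem: the combinatorial core.
-/

namespace Pool.Agent.Helper94.UEC

/-- Two words are comparable when one is a prefix of the other. -/
def Comp (u v : List ℕ) : Prop := u <+: v ∨ v <+: u

/-- The image of a word under the morphism with given values on letters. -/
def img {A : Type} (f : A → List ℕ) (u : List A) : List ℕ := u.flatMap f

/-- The pair of morphisms with values `(t a).1` and `(t a).2` is a unique equality continuation
instance. -/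
def UECF {A : Type} (t : A → List ℕ × List ℕ) : Prop :=
  ∀ (u : List A) (a b : A), a ≠ b →
    Comp (img (fun c => (t c).1) (u ++ [a])) (img (fun c => (t c).2) (u ++ [a])) →
    Comp (img (fun c => (t c).1) (u ++ [b])) (img (fun c => (t c).2) (u ++ [b])) →
    img (fun c => (t c).1) u = img (fun c => (t c).2) u

/-- Unique equality continuation instances, given by the finite list of the pairs
`(h(c), g(c))`. -/
def IsUEC (I : List (List ℕ × List ℕ)) : Prop := UECF (fun i : Fin I.length => I.get i)

theorem img_append {A : Type} (f : A → List ℕ) (u v : List A) : img f (u ++ v) = img f u ++ img f v := by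
  simp [img]

theorem img_single {A : Type} (f : A → List ℕ) (a : A) : img f [a] = f a := by
  simp [img]

theorem img_nil {A : Type} (f : A → List ℕ) : img f [] = [] := rfl

theorem img_cons {A : Type} (f : A → List ℕ) (a : A) (u : List A) : img f (a :: u) = f a ++ img f u := by
  simp [img]

theorem UECF_equiv {A B : Type} (e : A ≃ B) (t : B → List ℕ × List ℕ) (h : UECF (fun a => t (e a))) :
    UECF t := by
  intro u a b hab h1 h2
  have key : ∀ (f : B → List ℕ) (v : List B), img (fun a => f (e a)) (v.map e.symm) = img f v := by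
    intro f v
    simp [img, List.flatMap_map]
  have := h (u.map e.symm) (e.symm a) (e.symm b) (fun hh => hab (e.symm.injective hh))
  have e1 : ∀ c, u.map e.symm ++ [e.symm c] = (u ++ [c]).map e.symm := by intro c; simp
  rw [e1, e1] at this
  rw [key (fun c => (t c).1), key (fun c => (t c).2), key (fun c => (t c).1), key (fun c => (t c).2),
    key (fun c => (t c).1), key (fun c => (t c).2)] at this
  exact this h1 h2

theorem Comp.of_append {u v u' v' : List ℕ} (h : Comp (u ++ u') (v ++ v')) : Comp u v := by
  have key : ∀ {a b c d : List ℕ}, (a ++ b) <+: (c ++ d) → a <+: c ∨ c <+: a := by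
    intro a b c d h
    have h1 : a <+: c ++ d := (List.prefix_append a b).trans h
    exact List.prefix_or_prefix_of_prefix h1 (List.prefix_append c d)
  rcases h with h | h
  · exact key h
  · exact (key h).symm

/-- letters followed by stars -/
def hs (w : List ℕ) : List ℕ := w.flatMap fun y => [y, 0]
/-- letters preceded by stars -/
def gs (w : List ℕ) : List ℕ := w.flatMap fun y => [0, y]
/-- the overflow word -/
def ov : List ℕ → List ℕ
  | [] => []
  | y :: z => y :: gs z

theorem hs_append (a b : List ℕ) : hs (a ++ b) = hs a ++ hs b := by simp [hs]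
theorem gs_append (a b : List ℕ) : gs (a ++ b) = gs a ++ gs b := by simp [gs]
theorem hs_cons (a : ℕ) (b : List ℕ) : hs (a :: b) = a :: 0 :: hs b := by simp [hs]
theorem gs_cons (a : ℕ) (b : List ℕ) : gs (a :: b) = 0 :: a :: gs b := by simp [gs]
theorem hs_nil : hs [] = [] := rfl
theorem gs_nil : gs [] = [] := rfl

theorem gs_eq_ov {z : List ℕ} (hz : z ≠ []) : gs z = 0 :: ov z := by
  cases z with
  | nil => exact absurd rfl hz
  | cons y z => rw [gs_cons]; rfl

theorem ov_append {z : List ℕ} (hz : z ≠ []) (y : List ℕ) : ov (z ++ y) = ov z ++ gs y := by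
  cases z with
  | nil => exact absurd rfl hz
  | cons a z => show a :: gs (z ++ y) = a :: gs z ++ gs y; rw [gs_append]; rfl

theorem hs_ov (x : List ℕ) {z : List ℕ} (hz : z ≠ []) : ov (x ++ z) = hs x ++ ov z := by
  induction x with
  | nil => rfl
  | cons a x ih =>
    rw [hs_cons, List.cons_append]
    show a :: gs (x ++ z) = _
    rw [gs_eq_ov (by simp [hz]), ih]; rfl

theorem prefix_of_comp {x z r : List ℕ} (h : Comp (hs x) (ov z ++ r)) (hx : x.length ≤ 2)
    (hz : 2 ≤ z.length) : x <+: z := by
  match z, hz with
  | z1 :: z2 :: z', _ =>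
    have hov : ov (z1 :: z2 :: z') ++ r = z1 :: 0 :: z2 :: (gs z' ++ r) := by
      show z1 :: gs (z2 :: z') ++ r = _
      rw [gs_cons]; rfl
    rw [hov] at h
    match x, hx with
    | [], _ => exact List.nil_prefix
    | [x1], _ =>
      rw [hs_cons, hs_nil] at h
      rcases h with h | h
      · rw [List.cons_prefix_cons] at h
        rw [h.1]; exact ⟨z2 :: z', rfl⟩
      · rw [List.cons_prefix_cons, List.cons_prefix_cons] at h
        exact absurd h.2.2 (by simp)
    | [x1, x2], _ =>
      rw [hs_cons, hs_cons, hs_nil] at h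
      rcases h with h | h
      · rw [List.cons_prefix_cons, List.cons_prefix_cons, List.cons_prefix_cons] at h
        rw [h.1, h.2.2.1]; exact ⟨z', rfl⟩
      · rw [List.cons_prefix_cons, List.cons_prefix_cons, List.cons_prefix_cons] at h
        rw [← h.1, ← h.2.2.1]; exact ⟨z', rfl⟩

section core

variable {ι : Type} (R : ι → List ℕ × List ℕ) (w0 : List ℕ)

/-- The tiles: a start tile and one tile for each rule. -/
def tile : Option ι → List ℕ × List ℕ
  | none => ([1, 0], 1 :: gs w0)
  | some i => (hs (R i).1, gs (R i).2)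

/-- Words reachable by the rules `x z → z y`. -/
inductive Reach : List ℕ → Prop
  | refl : Reach w0
  | step {i : ι} {z : List ℕ} : Reach ((R i).1 ++ z) → Reach (z ++ (R i).2)

/-- first components -/
abbrev hh : List (Option ι) → List ℕ := img (fun c => (tile R w0 c).1)
/-- second components -/
abbrev gg : List (Option ι) → List ℕ := img (fun c => (tile R w0 c).2)

theorem hh_snoc (u : List (Option ι)) (a : Option ι) :
    hh R w0 (u ++ [a]) = hh R w0 u ++ (tile R w0 a).1 := by
  show img _ _ = img _ _ ++ _
  rw [img_append, img_single]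

theorem gg_snoc (u : List (Option ι)) (a : Option ι) :
    gg R w0 (u ++ [a]) = gg R w0 u ++ (tile R w0 a).2 := by
  show img _ _ = img _ _ ++ _
  rw [img_append, img_single]

theorem hh_none : hh R w0 [none] = [1, 0] := img_single _ _

theorem gg_none : gg R w0 [none] = 1 :: gs w0 := img_single _ _

variable {R w0}

theorem reach_path (hw0 : w0 ≠ []) (hR2 : ∀ i, (R i).2 ≠ []) {w : List ℕ} (h : Reach R w0 w) :
    w ≠ [] ∧ ∃ u, gg R w0 (none :: u) = hh R w0 (none :: u) ++ ov w := by
  induction h with
  | refl =>
    refine ⟨hw0, [], ?_⟩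
    rw [hh_none, gg_none, gs_eq_ov hw0]; rfl
  | @step i z hz ih =>
    obtain ⟨hne, u, hu⟩ := ih
    have hne' : z ++ (R i).2 ≠ [] := by simp [hR2 i]
    refine ⟨hne', u ++ [some i], ?_⟩
    have e1 : none :: (u ++ [some i]) = (none :: u) ++ [some i] := rfl
    rw [e1, hh_snoc, gg_snoc, hu]
    show hh R w0 (none :: u) ++ ov ((R i).1 ++ z) ++ gs (R i).2 = hh R w0 (none :: u) ++ hs (R i).1
      ++ ov (z ++ (R i).2)
    rw [List.append_assoc, ← ov_append hne, List.append_assoc, hs_ov _ hne', List.append_assoc]

theorem not_uec (hw0 : w0 ≠ []) (hR2 : ∀ i, (R i).2 ≠ []) {w : List ℕ} (h : Reach R w0 w)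
    {a b : ι} (hab : a ≠ b) (ha : (R a).1 <+: w) (hb : (R b).1 <+: w) : ¬ UECF (tile R w0) := by
  intro hU
  obtain ⟨hne, u, hu⟩ := reach_path hw0 hR2 h
  have key : ∀ c : ι, (R c).1 <+: w →
      Comp (hh R w0 ((none :: u) ++ [some c])) (gg R w0 ((none :: u) ++ [some c])) := by
    intro c hc
    left
    obtain ⟨z, rfl⟩ := hc
    rw [hh_snoc, gg_snoc, hu, List.append_assoc, List.prefix_append_right_inj]
    show hs (R c).1 <+: ov ((R c).1 ++ z) ++ gs (R c).2
    rw [← ov_append hne, List.append_assoc, hs_ov _ (by simp [hR2 c])]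
    exact List.prefix_append _ _
  have h1 := hU (none :: u) (some a) (some b) (fun h => hab (Option.some.inj h)) (key a ha) (key b hb)
  have h2 : hh R w0 (none :: u) = gg R w0 (none :: u) := h1
  rw [hu] at h2
  have h3 := congrArg List.length h2
  rw [List.length_append] at h3
  cases w with
  | nil => exact hne rfl
  | cons a w => simp [ov] at h3

theorem path_reach (hw0 : w0 ≠ []) (hR2 : ∀ i, (R i).2 ≠ []) (hRl : ∀ i, (R i).1.length ≤ 2)
    (hreach : ∀ w, Reach R w0 w → 2 ≤ w.length ∧ ∀ x ∈ w, 2 ≤ x) (u : List (Option ι)) :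
    Comp (hh R w0 (none :: u)) (gg R w0 (none :: u)) →
      ∃ w, Reach R w0 w ∧ gg R w0 (none :: u) = hh R w0 (none :: u) ++ ov w := by
  induction u using List.reverseRecOn with
  | nil =>
    intro _
    refine ⟨w0, Reach.refl, ?_⟩
    rw [hh_none, gg_none, gs_eq_ov hw0]; rfl
  | append_singleton u a ih =>
    intro hcomp
    have e1 : none :: (u ++ [a]) = (none :: u) ++ [a] := rfl
    rw [e1, hh_snoc, gg_snoc] at hcomp
    obtain ⟨w, hw, hgw⟩ := ih hcomp.of_append
    obtain ⟨hlen, hlet⟩ := hreach w hw
    have hwne : w ≠ [] := by intro h; rw [h] at hlen; simp at hlen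
    rw [hgw, List.append_assoc] at hcomp
    have hc2 : Comp (tile R w0 a).1 (ov w ++ (tile R w0 a).2) := by
      rcases hcomp with h | h
      · left; exact (List.prefix_append_right_inj _).mp h
      · right; exact (List.prefix_append_right_inj _).mp h
    cases a with
    | none =>
      exfalso
      have hc3 : Comp (hs [1]) (ov w ++ (tile R w0 none).2) := hc2
      obtain ⟨z, rfl⟩ := prefix_of_comp hc3 (by simp) hlen
      exact absurd (hlet 1 (by simp)) (by norm_num)
    | some i =>
      have hc3 : Comp (hs (R i).1) (ov w ++ (tile R w0 (some i)).2) := hc2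
      obtain ⟨z, rfl⟩ := prefix_of_comp hc3 (hRl i) hlen
      refine ⟨z ++ (R i).2, Reach.step hw, ?_⟩
      rw [e1, hh_snoc, gg_snoc, hgw]
      show hh R w0 (none :: u) ++ ov ((R i).1 ++ z) ++ gs (R i).2 =
        hh R w0 (none :: u) ++ hs (R i).1 ++ ov (z ++ (R i).2)
      rw [List.append_assoc, ← ov_append hwne, List.append_assoc, hs_ov _ (by simp [hR2 i]),
        List.append_assoc]

theorem uec (hw0 : w0 ≠ []) (hR2 : ∀ i, (R i).2 ≠ []) (hRl : ∀ i, (R i).1.length ≤ 2)
    (hR1 : ∀ i, ∃ x l, (R i).1 = x :: l ∧ x ≠ 0)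
    (hreach : ∀ w, Reach R w0 w → 2 ≤ w.length ∧ ∀ x ∈ w, 2 ≤ x)
    (huniq : ∀ w a b, Reach R w0 w → (R a).1 <+: w → (R b).1 <+: w → a = b) :
    UECF (tile R w0) := by
  intro u a b hab ha hb
  cases u with
  | nil => rfl
  | cons c u =>
    exfalso
    cases c with
    | some i =>
      obtain ⟨x, l, hx, hx0⟩ := hR1 i
      rw [List.cons_append, img_cons, img_cons] at ha
      have h1 : (tile R w0 (some i)).1 = x :: 0 :: hs l := by
        show hs (R i).1 = _
        rw [hx, hs_cons]
      have h2 : (tile R w0 (some i)).2 = 0 :: ov (R i).2 := gs_eq_ov (hR2 i)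
      rw [h1, h2] at ha
      simp only [List.cons_append] at ha
      rcases ha with h | h
      · rw [List.cons_prefix_cons] at h
        exact hx0 h.1
      · rw [List.cons_prefix_cons] at h
        exact hx0 h.1.symm
    | none =>
      have ha' : Comp (hh R w0 (none :: u ++ [a])) (gg R w0 (none :: u ++ [a])) := ha
      rw [hh_snoc, gg_snoc] at ha'
      obtain ⟨w, hw, hgw⟩ := path_reach hw0 hR2 hRl hreach u ha'.of_append
      obtain ⟨hlen, hlet⟩ := hreach w hw
      have key : ∀ d : Option ι, Comp (hh R w0 (none :: u ++ [d])) (gg R w0 (none :: u ++ [d])) →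
          ∃ i, d = some i ∧ (R i).1 <+: w := by
        intro d hd
        rw [hh_snoc, gg_snoc, hgw, List.append_assoc] at hd
        have hc2 : Comp (tile R w0 d).1 (ov w ++ (tile R w0 d).2) := by
          rcases hd with h | h
          · left; exact (List.prefix_append_right_inj _).mp h
          · right; exact (List.prefix_append_right_inj _).mp h
        cases d with
        | none =>
          exfalso
          have hc3 : Comp (hs [1]) (ov w ++ (tile R w0 none).2) := hc2
          obtain ⟨z, rfl⟩ := prefix_of_comp hc3 (by simp) hlen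
          exact absurd (hlet 1 (by simp)) (by norm_num)
        | some i =>
          have hc3 : Comp (hs (R i).1) (ov w ++ (tile R w0 (some i)).2) := hc2
          exact ⟨i, rfl, prefix_of_comp hc3 (hRl i) hlen⟩
      obtain ⟨i, rfl, hi⟩ := key a ha
      obtain ⟨j, rfl, hj⟩ := key b hb
      exact hab (congrArg some (huniq w i j hw hi hj))

end core

end Pool.Agent.Helper94.UEC
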