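import Pool.Agent.Helper94.UEC.Core

/-!
Queue machines and the associated instances.
-/

namespace Pool.Agent.Helper94.UEC

open Turing StateTransition

/-- The step function of a queue machine. -/
def qstep {Q S : Type} (δ : Q → S → Option (List S × Q)) : Q × List S → Option (Q × List S)
  | (_, []) => none
  | (q, x :: w) => (δ q x).map fun p => (p.2, w ++ p.1)

section rules

variable {Q S : Type} (δ : Q → S → Option (List S × Q)) (ℓ : Q ⊕ S → ℕ)

/-- index set of the rules -/
abbrev Idx : Type := S ⊕ (Q × S) ⊕ {p : Q × S // δ p.1 p.2 = none}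

/-- the rules of a queue machine -/
def rule : Idx δ → List ℕ × List ℕ
  | Sum.inl x => ([ℓ (Sum.inr x)], [ℓ (Sum.inr x)])
  | Sum.inr (Sum.inl (q, x)) =>
    match δ q x with
    | none => ([ℓ (Sum.inl q), ℓ (Sum.inr x)], [ℓ (Sum.inr x), ℓ (Sum.inl q)])
    | some (v, q') => ([ℓ (Sum.inl q), ℓ (Sum.inr x)], v.map (fun y => ℓ (Sum.inr y)) ++ [ℓ (Sum.inl q')])
  | Sum.inr (Sum.inr p) => ([ℓ (Sum.inl p.1.1), ℓ (Sum.inr p.1.2)],
      [ℓ (Sum.inr p.1.2), ℓ (Sum.inr p.1.2), ℓ (Sum.inl p.1.1)])

theorem rule_head1 (q : Q) (x : S) :
    (rule δ ℓ (Sum.inr (Sum.inl (q, x)))).1 = [ℓ (Sum.inl q), ℓ (Sum.inr x)] := by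
  unfold rule; simp only []; split <;> rfl

theorem rule_ne (i : Idx δ) : (rule δ ℓ i).2 ≠ [] := by
  rcases i with x | ⟨q, x⟩ | p
  · simp [rule]
  · unfold rule; simp only []; split <;> simp
  · simp [rule]

theorem rule_len (i : Idx δ) : (rule δ ℓ i).1.length ≤ 2 := by
  rcases i with x | ⟨q, x⟩ | p
  · simp [rule]
  · rw [rule_head1]; simp
  · simp [rule]

/-- the start word -/
def word (q : Q) (w : List S) : List ℕ := ℓ (Sum.inl q) :: w.map (fun y => ℓ (Sum.inr y))

variable (hℓ : Function.Injective ℓ) (hℓ2 : ∀ z, 2 ≤ ℓ z) (q0 : Q) (w0 : List S)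

/-- general shape of a reachable word -/
def shape (q : Q) (z1 z2 : List S) : List ℕ :=
  z2.map (fun y => ℓ (Sum.inr y)) ++ ℓ (Sum.inl q) :: z1.map (fun y => ℓ (Sum.inr y))

variable {δ ℓ q0 w0}

theorem reach_rotate {q : Q} (z2 z1 : List S)
    (h : Reach (rule δ ℓ) (word ℓ q0 w0) (shape ℓ q z1 z2)) :
    Reach (rule δ ℓ) (word ℓ q0 w0) (word ℓ q (z1 ++ z2)) := by
  induction z2 generalizing z1 with
  | nil =>
    rw [List.append_nil]; exact h
  | cons x z2 ih =>
    have h1 : shape ℓ q z1 (x :: z2) = (rule δ ℓ (Sum.inl x)).1 ++ shape ℓ q z1 z2 := rfl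
    rw [h1] at h
    have h2 := Reach.step h
    have h3 : shape ℓ q z1 z2 ++ (rule δ ℓ (Sum.inl x)).2 = shape ℓ q (z1 ++ [x]) z2 := by
      simp [shape, rule]
    rw [h3] at h2
    have h4 := ih (z1 ++ [x]) h2
    rwa [List.append_assoc] at h4

theorem reach_of_reaches {c : Q × List S} (h : Reaches (qstep δ) (q0, w0) c) :
    Reach (rule δ ℓ) (word ℓ q0 w0) (word ℓ c.1 c.2) := by
  induction h with
  | refl => exact Reach.refl
  | @tail b c _ hbc ih =>
    obtain ⟨q, w⟩ := b
    cases w with
    | nil => exact absurd hbc (by simp [qstep])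
    | cons x w =>
      simp only [qstep, Option.mem_def, Option.map_eq_some_iff] at hbc
      obtain ⟨⟨v, q'⟩, hδ, rfl⟩ := hbc
      have h1 : word ℓ q (x :: w) = (rule δ ℓ (Sum.inr (Sum.inl (q, x)))).1 ++
          w.map (fun y => ℓ (Sum.inr y)) := by
        rw [rule_head1]; rfl
      simp only [] at ih
      rw [h1] at ih
      have h2 := Reach.step ih
      have h3 : w.map (fun y => ℓ (Sum.inr y)) ++ (rule δ ℓ (Sum.inr (Sum.inl (q, x)))).2 =
          shape ℓ q' [] (w ++ v) := by
        simp [rule, hδ, shape]
      rw [h3] at h2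
      have h4 := reach_rotate _ _ h2
      simpa using h4

include hℓ in
theorem shape_of_reach (hnh : ∀ c, Reaches (qstep δ) (q0, w0) c → qstep δ c ≠ none) {w : List ℕ}
    (h : Reach (rule δ ℓ) (word ℓ q0 w0) w) :
    ∃ q z1 z2, Reaches (qstep δ) (q0, w0) (q, z1 ++ z2) ∧ w = shape ℓ q z1 z2 := by
  induction h with
  | refl => exact ⟨q0, w0, [], by rw [List.append_nil]; exact Relation.ReflTransGen.refl, rfl⟩
  | @step i z hz ih =>
    obtain ⟨q, z1, z2, hr, he⟩ := ih
    have hlq : ∀ q x, ℓ (Sum.inl q) ≠ ℓ (Sum.inr x) := fun q x h => by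
      have := hℓ h; exact absurd this (by simp)
    rcases i with x | ⟨q', x⟩ | ⟨⟨q', x⟩, hp⟩
    · -- copy rule
      cases z2 with
      | nil =>
        have h1 : ℓ (Sum.inr x) = ℓ (Sum.inl q) := by
          have := congrArg List.head? he
          simpa [rule, shape] using this
        exact absurd h1.symm (hlq _ _)
      | cons y z2 =>
        have h1 : ℓ (Sum.inr x) :: z = ℓ (Sum.inr y) :: shape ℓ q z1 z2 := he
        rw [List.cons.injEq] at h1
        have hxy : x = y := by
          have := hℓ h1.1; simpa using this
        subst hxy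
        refine ⟨q, z1 ++ [x], z2, by rw [List.append_assoc]; exact hr, ?_⟩
        rw [h1.2]; simp [shape, rule]
    · have h0 : [ℓ (Sum.inl q'), ℓ (Sum.inr x)] ++ z = shape ℓ q z1 z2 := by
        rw [← he, rule_head1]
      cases z2 with
      | cons y z2 =>
        have h1 : ℓ (Sum.inl q') = ℓ (Sum.inr y) := by
          have := congrArg List.head? h0
          simpa [rule, shape] using this
        exact absurd h1 (hlq _ _)
      | nil =>
        cases z1 with
        | nil =>
          have := congrArg List.length h0
          simp [shape] at this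
        | cons y z1 =>
          have h1 : ℓ (Sum.inl q') :: ℓ (Sum.inr x) :: z =
            ℓ (Sum.inl q) :: ℓ (Sum.inr y) :: z1.map (fun y => ℓ (Sum.inr y)) := h0
          rw [List.cons.injEq, List.cons.injEq] at h1
          obtain ⟨e1, e2, rfl⟩ := h1
          have hq : q' = q := by have := hℓ e1; simpa using this
          have hx : x = y := by have := hℓ e2; simpa using this
          subst hq hx
          cases hδ : δ q' x with
          | none =>
            exfalso
            exact hnh _ hr (by simp [qstep, hδ])
          | some p =>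
            obtain ⟨v, q''⟩ := p
            refine ⟨q'', [], z1 ++ v, ?_, ?_⟩
            · refine Relation.ReflTransGen.tail hr ?_
              show (δ q' x).map _ = _
              rw [hδ]; simp
            · simp [rule, hδ, shape]
    · have h0 : [ℓ (Sum.inl q'), ℓ (Sum.inr x)] ++ z = shape ℓ q z1 z2 := he
      cases z2 with
      | cons y z2 =>
        have h1 : ℓ (Sum.inl q') = ℓ (Sum.inr y) := by
          have := congrArg List.head? h0
          simpa [rule, shape] using this
        exact absurd h1 (hlq _ _)
      | nil =>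
        cases z1 with
        | nil =>
          have := congrArg List.length h0
          simp [shape] at this
        | cons y z1 =>
          have h1 : ℓ (Sum.inl q') :: ℓ (Sum.inr x) :: z =
            ℓ (Sum.inl q) :: ℓ (Sum.inr y) :: z1.map (fun y => ℓ (Sum.inr y)) := h0
          rw [List.cons.injEq, List.cons.injEq] at h1
          obtain ⟨e1, e2, rfl⟩ := h1
          have hq : q' = q := by have := hℓ e1; simpa using this
          have hx : x = y := by have := hℓ e2; simpa using this
          subst hq hx
          exfalso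
          exact hnh _ hr (by simp [qstep, hp])

include hℓ hℓ2 in
/-- The instance is a unique equality continuation instance iff the machine does not halt. -/
theorem uec_iff (hne : ∀ c, Reaches (qstep δ) (q0, w0) c → c.2 ≠ []) :
    UECF (tile (rule δ ℓ) (word ℓ q0 w0)) ↔ ¬ (eval (qstep δ) (q0, w0)).Dom := by
  have hlq : ∀ q x, ℓ (Sum.inl q) ≠ ℓ (Sum.inr x) := fun q x h => by
    have := hℓ h; exact absurd this (by simp)
  have hw0 : word ℓ q0 w0 ≠ [] := by simp [word]
  constructor
  · intro hU hdom
    obtain ⟨c, hc⟩ := Part.dom_iff_mem.mp hdom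
    rw [mem_eval] at hc
    obtain ⟨hr, hstop⟩ := hc
    obtain ⟨q, w⟩ := c
    cases w with
    | nil => exact hne _ hr rfl
    | cons x w =>
      have hδ : δ q x = none := by
        have h1 : (δ q x).map (fun p => (p.2, w ++ p.1)) = none := hstop
        simpa using h1
      have h1 := reach_of_reaches (ℓ := ℓ) hr
      refine not_uec hw0 (rule_ne δ ℓ) h1 (a := Sum.inr (Sum.inl (q, x)))
        (b := Sum.inr (Sum.inr ⟨(q, x), hδ⟩)) (by simp) ?_ ?_ hU
      · rw [rule_head1]; exact ⟨w.map (fun y => ℓ (Sum.inr y)), rfl⟩
      · exact ⟨w.map (fun y => ℓ (Sum.inr y)), rfl⟩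
  · intro hndom
    have hnh : ∀ c, Reaches (qstep δ) (q0, w0) c → qstep δ c ≠ none := by
      intro c hr hc
      apply hndom
      exact Part.dom_iff_mem.mpr ⟨c, (mem_eval).mpr ⟨hr, hc⟩⟩
    refine uec hw0 (rule_ne δ ℓ) (rule_len δ ℓ) ?_ ?_ ?_
    · intro i
      rcases i with x | ⟨q, x⟩ | p
      · exact ⟨_, _, rfl, by have := hℓ2 (Sum.inr x); omega⟩
      · exact ⟨_, _, rule_head1 _ _ _ _, by have := hℓ2 (Sum.inl q); omega⟩
      · exact ⟨_, _, rfl, by have := hℓ2 (Sum.inl p.1.1); omega⟩
    · intro w hw
      obtain ⟨q, z1, z2, hr, rfl⟩ := shape_of_reach hℓ hnh hw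
      refine ⟨?_, ?_⟩
      · have h1 := hne _ hr
        have h2 : 0 < (z1 ++ z2).length := List.length_pos_iff.mpr h1
        rw [List.length_append] at h2
        simp only [shape, List.length_append, List.length_cons, List.length_map]
        omega
      · intro x hx
        simp only [shape, List.mem_append, List.mem_cons, List.mem_map] at hx
        rcases hx with ⟨y, _, rfl⟩ | rfl | ⟨y, _, rfl⟩ <;> exact hℓ2 _
    · intro w a b hw ha hb
      obtain ⟨q, z1, z2, hr, rfl⟩ := shape_of_reach hℓ hnh hw
      -- determine the applicable rule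
      have key : ∀ i : Idx δ, (rule δ ℓ i).1 <+: shape ℓ q z1 z2 →
          (∃ x z, z2 = x :: z ∧ i = Sum.inl x) ∨
          (z2 = [] ∧ ∃ x z, z1 = x :: z ∧ i = Sum.inr (Sum.inl (q, x))) := by
        intro i hi
        obtain ⟨z, hz⟩ := hi
        rcases i with x | ⟨q', x⟩ | ⟨⟨q', x⟩, hp⟩
        · left
          cases z2 with
          | nil =>
            have h1 : ℓ (Sum.inr x) = ℓ (Sum.inl q) := by
              have := congrArg List.head? hz
              simpa [rule, shape] using this
            exact absurd h1.symm (hlq _ _)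
          | cons y z2 =>
            have h1 : ℓ (Sum.inr x) :: z = ℓ (Sum.inr y) :: shape ℓ q z1 z2 := hz
            rw [List.cons.injEq] at h1
            have hxy : x = y := by have := hℓ h1.1; simpa using this
            exact ⟨y, z2, rfl, by rw [hxy]⟩
        · right
          rw [rule_head1] at hz
          cases z2 with
          | cons y z2 =>
            have h1 : ℓ (Sum.inl q') = ℓ (Sum.inr y) := by
              have := congrArg List.head? hz
              simpa [rule, shape] using this
            exact absurd h1 (hlq _ _)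
          | nil =>
            cases z1 with
            | nil =>
              have := congrArg List.length hz
              simp [shape] at this
            | cons y z1 =>
              have h1 : ℓ (Sum.inl q') :: ℓ (Sum.inr x) :: z =
                ℓ (Sum.inl q) :: ℓ (Sum.inr y) :: z1.map (fun y => ℓ (Sum.inr y)) := hz
              rw [List.cons.injEq, List.cons.injEq] at h1
              obtain ⟨e1, e2, _⟩ := h1
              have hq : q' = q := by have := hℓ e1; simpa using this
              have hx : x = y := by have := hℓ e2; simpa using this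
              exact ⟨rfl, y, z1, rfl, by rw [hq, hx]⟩
        · exfalso
          have hz' : [ℓ (Sum.inl q'), ℓ (Sum.inr x)] ++ z = shape ℓ q z1 z2 := hz
          cases z2 with
          | cons y z2 =>
            have h1 : ℓ (Sum.inl q') = ℓ (Sum.inr y) := by
              have := congrArg List.head? hz'
              simpa [rule, shape] using this
            exact absurd h1 (hlq _ _)
          | nil =>
            cases z1 with
            | nil =>
              have := congrArg List.length hz'
              simp [shape] at this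
            | cons y z1 =>
              have h1 : ℓ (Sum.inl q') :: ℓ (Sum.inr x) :: z =
                ℓ (Sum.inl q) :: ℓ (Sum.inr y) :: z1.map (fun y => ℓ (Sum.inr y)) := hz'
              rw [List.cons.injEq, List.cons.injEq] at h1
              obtain ⟨e1, e2, _⟩ := h1
              have hq : q' = q := by have := hℓ e1; simpa using this
              have hx : x = y := by have := hℓ e2; simpa using this
              subst hq hx
              exact hnh _ hr (by simp [qstep, hp])
      rcases key a ha with ⟨x, z, e1, e2⟩ | ⟨e0, x, z, e1, e2⟩ <;>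
      rcases key b hb with ⟨x', z', f1, f2⟩ | ⟨f0, x', z', f1, f2⟩
      · rw [e1, List.cons.injEq] at f1; rw [e2, f2, f1.1]
      · rw [e1] at f0; exact absurd f0 (by simp)
      · rw [f1] at e0; exact absurd e0 (by simp)
      · rw [e1, List.cons.injEq] at f1; rw [e2, f2, f1.1]

end rules

/-- A symbol which is never erased stays in the queue. -/
theorem mem_of_reaches {Q S : Type} {δ : Q → S → Option (List S × Q)} {s : S}
    (hs : ∀ q v q', δ q s = some (v, q') → s ∈ v) {c c' : Q × List S}
    (h : Reaches (qstep δ) c c') (hc : s ∈ c.2) : s ∈ c'.2 := by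
  induction h with
  | refl => exact hc
  | @tail b d _ hbd ih =>
    obtain ⟨q, w⟩ := b
    cases w with
    | nil => exact absurd hbd (by simp [qstep])
    | cons x w =>
      simp only [qstep, Option.mem_def, Option.map_eq_some_iff] at hbd
      obtain ⟨⟨v, q'⟩, hδ, rfl⟩ := hbd
      simp only [List.mem_append]
      simp only [List.mem_cons] at ih
      rcases ih with rfl | h1
      · exact Or.inr (hs _ _ _ hδ)
      · exact Or.inl h1

/-- Restriction to a closed set of states. -/
theorem restrict_dom {Q S : Type} (δ : Q → S → Option (List S × Q)) (F : Q → Prop)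
    (δ' : {q // F q} → S → Option (List S × {q // F q}))
    (h : ∀ (q : {q // F q}) x, δ q.1 x = (δ' q x).map (fun p => (p.1, p.2.1)))
    (q0 : {q // F q}) (w0 : List S) :
    (eval (qstep δ') (q0, w0)).Dom ↔ (eval (qstep δ) (q0.1, w0)).Dom := by
  have hresp : Respects (qstep δ) (qstep δ') (fun a b => a = (b.1.1, b.2)) := by
    rintro a ⟨q, w⟩ rfl
    cases w with
    | nil => simp [qstep]
    | cons x w =>
      simp only [qstep, h q x]
      cases hδ : δ' q x with
      | none => simp
      | some p =>
        simp only [Option.map_some]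
        refine ⟨(p.2, w ++ p.1), rfl, ?_⟩
        apply Relation.TransGen.single
        simp [qstep, hδ]
  exact (tr_eval_dom hresp (a₁ := (q0.1, w0)) (a₂ := (q0, w0)) rfl)

end Pool.Agent.Helper94.UEC
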