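import Pool.Agent.Helper94.UEC.Queue

/-!
Simulation of stack machines by queue machines.
-/

namespace Pool.Agent.Helper94.UEC

open Turing StateTransition Function

section defs

variable {K G Λ σ : Type}

/-- statements of stack machines with constant alphabet -/
abbrev St (K G Λ σ : Type) : Type := TM2.Stmt (fun _ : K => G) Λ σ

/-- states of the simulating queue machine -/
inductive QS (K G Λ σ : Type) : Type
  | run : St K G Λ σ → σ → QS K G Λ σ
  | mid : St K G Λ σ → σ → QS K G Λ σ
  | done : QS K G Λ σ

open TM2.Stmt

/-- transition function of the simulating queue machine; the symbol `inl k` is the top of the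
stack `k` -/
def dl [DecidableEq K] [DecidableEq G] (M : Λ → St K G Λ σ) :
    QS K G Λ σ → K ⊕ G → Option (List (K ⊕ G) × QS K G Λ σ)
  | .run (push k f s) v, x =>
    if x = Sum.inl k then some ([Sum.inl k, Sum.inr (f v)], .run s v)
    else some ([x], .run (push k f s) v)
  | .run (peek k f s) v, x =>
    if x = Sum.inl k then some ([Sum.inl k], .mid (peek k f s) v)
    else some ([x], .run (peek k f s) v)
  | .run (pop k f s) v, x =>
    if x = Sum.inl k then some ([Sum.inl k], .mid (pop k f s) v)
    else some ([x], .run (pop k f s) v)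
  | .run (load a s) v, x => some ([x], .run s (a v))
  | .run (branch p s₁ s₂) v, x => some ([x], .run (cond (p v) s₁ s₂) v)
  | .run (goto l) v, x => some ([x], .run (M (l v)) v)
  | .run halt _, x => some ([x], .done)
  | .mid (peek _ f s) v, Sum.inr g => some ([Sum.inr g], .run s (f v (some g)))
  | .mid (peek _ f s) v, Sum.inl j => some ([Sum.inl j], .run s (f v none))
  | .mid (pop _ f s) v, Sum.inr g => some ([], .run s (f v (some g)))
  | .mid (pop _ f s) v, Sum.inl j => some ([Sum.inl j], .run s (f v none))
  | .mid _ _, _ => none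
  | .done, _ => none

/-- the queue content coding the stacks -/
def canon (ks : List K) (S : K → List G) : List (K ⊕ G) :=
  ks.flatMap fun k => Sum.inl k :: (S k).map Sum.inr

theorem canon_append (a b : List K) (S : K → List G) : canon (a ++ b) S = canon a S ++ canon b S := by
  simp [canon]

theorem canon_cons (k : K) (b : List K) (S : K → List G) :
    canon (k :: b) S = Sum.inl k :: ((S k).map Sum.inr ++ canon b S) := by
  simp [canon]

theorem canon_update [DecidableEq K] {a : List K} {k : K} (hk : k ∉ a) (S : K → List G) (l : List G) :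
    canon a (update S k l) = canon a S := by
  induction a with
  | nil => rfl
  | cons j a ih =>
    simp only [List.mem_cons, not_or] at hk
    rw [canon_cons, canon_cons, ih hk.2, update_of_ne (Ne.symm hk.1)]

theorem not_mem_canon {a : List K} {k : K} (hk : k ∉ a) (S : K → List G) :
    (Sum.inl k : K ⊕ G) ∉ canon a S := by
  unfold canon
  simp only [List.mem_flatMap, List.mem_cons, List.mem_map, not_exists, not_and, not_or]
  intro j hj
  refine ⟨fun h => hk ?_, by simp⟩
  simp only [Sum.inl.injEq] at h
  rw [h]; exact hj

end defs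

section sim

variable {K G Λ σ : Type} [DecidableEq K] [DecidableEq G]

open TM2.Stmt

variable {ks : List K} (hnd : ks.Nodup) (hall : ∀ k, k ∈ ks) (hks : ks ≠ [])

include hnd hall in
theorem canon_rot (k : K) (S : K → List G) : ∃ rest : List (K ⊕ G), Sum.inl k ∉ rest ∧
    (∃ j r', rest ++ [Sum.inl k] = Sum.inl j :: r') ∧
    ∀ l, canon ks (update S k l) ~r (Sum.inl k :: (l.map Sum.inr ++ rest)) := by
  obtain ⟨a, b, rfl⟩ := List.append_of_mem (hall k)
  have hka : k ∉ a := by
    intro h
    have := List.nodup_append.mp hnd
    exact this.2.2 k h k (List.mem_cons_self ..) rfl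
  have hkb : k ∉ b := by
    have := (List.nodup_append.mp hnd).2.1
    exact (List.nodup_cons.mp this).1
  refine ⟨canon b S ++ canon a S, ?_, ?_, ?_⟩
  · simp only [List.mem_append, not_or]
    exact ⟨not_mem_canon hkb S, not_mem_canon hka S⟩
  · cases b with
    | cons j b => exact ⟨j, _, by rw [canon_cons]; rfl⟩
    | nil =>
      cases a with
      | cons j a => exact ⟨j, _, by rw [canon_cons]; rfl⟩
      | nil => exact ⟨k, [], rfl⟩
  · intro l
    rw [canon_append, canon_cons, canon_update hka, canon_update hkb, update_self]
    have : Sum.inl k :: (l.map Sum.inr ++ (canon b S ++ canon a S)) =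
      (Sum.inl k :: (l.map Sum.inr ++ canon b S)) ++ canon a S := by simp
    rw [this]
    exact List.isRotated_append

omit [DecidableEq K] [DecidableEq G] in
theorem rot_reaches {Q S : Type} {δ : Q → S → Option (List S × Q)} {q : Q} (a c : List S)
    (h : ∀ x ∈ a, δ q x = some ([x], q)) : Reaches (qstep δ) (q, a ++ c) (q, c ++ a) := by
  induction a generalizing c with
  | nil => rw [List.nil_append, List.append_nil]; exact Relation.ReflTransGen.refl
  | cons x a ih =>
    refine Relation.ReflTransGen.head (b := (q, a ++ (c ++ [x]))) ?_ ?_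
    · simp only [qstep, List.cons_append, Option.mem_def]
      rw [h x (List.mem_cons_self ..)]
      simp
    · have h1 := ih (c ++ [x]) (fun y hy => h y (List.mem_cons_of_mem _ hy))
      have e : (c ++ [x]) ++ a = c ++ x :: a := by simp
      rw [e] at h1
      exact h1

omit [DecidableEq K] [DecidableEq G] in
theorem seek {Q S : Type} {δ : Q → S → Option (List S × Q)} {q : Q} {s : S} {m w : List S}
    (hq : ∀ x, x ≠ s → δ q x = some ([x], q)) (hm : s ∉ m) (hw : w ~r (s :: m)) :
    Reaches (qstep δ) (q, w) (q, s :: m) := by
  obtain ⟨n, hn⟩ := hw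
  rw [List.rotate_eq_drop_append_take_mod] at hn
  have hsplit : w = w.take (n % w.length) ++ w.drop (n % w.length) := (List.take_append_drop _ _).symm
  generalize w.take (n % w.length) = a at hn hsplit
  generalize w.drop (n % w.length) = b at hn hsplit
  subst hsplit
  rw [← hn]
  cases b with
  | nil =>
    rw [List.append_nil, List.nil_append]; exact Relation.ReflTransGen.refl
  | cons x b =>
    rw [List.cons_append, List.cons.injEq] at hn
    obtain ⟨rfl, rfl⟩ := hn
    refine rot_reaches _ _ fun y hy => hq y ?_
    rintro rfl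
    exact hm (List.mem_append_right _ hy)

theorem r1_single {α : Type} {f : α → Option α} {a b : α} (h : f a = some b) : Reaches₁ f a b :=
  Relation.TransGen.single h

theorem isRot_ne {α : Type} {a b : List α} (h : a ~r b) (hb : b ≠ []) : a ≠ [] := by
  rintro rfl
  rw [List.isRotated_nil_iff'] at h
  exact hb h.symm

include hnd hall hks in
theorem sim_aux (M : Λ → St K G Λ σ) (s : St K G Λ σ) (v : σ) (S : K → List G) (w : List (K ⊕ G))
    (hw : w ~r canon ks S) : ∃ w', w' ~r canon ks (TM2.stepAux s v S).stk ∧
      Reaches₁ (qstep (dl M)) (.run s v, w) (match (TM2.stepAux s v S).l with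
        | some l => .run (M l) (TM2.stepAux s v S).var
        | none => .done, w') := by
  have hcn : ∀ S : K → List G, canon ks S ≠ [] := by
    intro S
    cases ks with
    | nil => exact absurd rfl hks
    | cons k ks => rw [canon_cons]; simp
  have hone : ∀ {q q' : QS K G Λ σ} {w : List (K ⊕ G)}, w ≠ [] →
      (∀ x, dl M q x = some ([x], q')) → ∃ w', w' ~r w ∧ qstep (dl M) (q, w) = some (q', w') := by
    intro q q' w hw h
    cases w with
    | nil => exact absurd rfl hw
    | cons x w =>
      refine ⟨w ++ [x], List.isRotated_append, ?_⟩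
      simp only [qstep, h x, Option.map_some]
  induction s generalizing v S w with
  | push k f s ih =>
    obtain ⟨rest, hr1, _, hr3⟩ := canon_rot (G := G) hnd hall k S
    have hS : update S k (S k) = S := update_eq_self k S
    have h1 := seek (δ := dl M) (q := .run (push k f s) v) (s := Sum.inl k)
      (m := (S k).map Sum.inr ++ rest) (w := w)
      (fun x hx => by simp only [dl, if_neg hx])
      (by simp [hr1]) (hw.trans (by have := hr3 (S k); rwa [hS] at this))
    have h2 : qstep (dl M) (.run (push k f s) v, Sum.inl k :: ((S k).map Sum.inr ++ rest)) =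
        some (.run s v, ((S k).map Sum.inr ++ rest) ++ [Sum.inl k, Sum.inr (f v)]) := by
      simp only [qstep, dl, if_true, Option.map_some]
    obtain ⟨w', hw', hr⟩ := ih v (update S k (f v :: S k))
      (((S k).map Sum.inr ++ rest) ++ [Sum.inl k, Sum.inr (f v)]) (by
        refine List.IsRotated.trans ?_ (hr3 (f v :: S k)).symm
        have : Sum.inl k :: ((f v :: S k).map Sum.inr ++ rest) =
          [Sum.inl k, Sum.inr (f v)] ++ ((S k).map Sum.inr ++ rest) := by simp
        rw [this]
        exact List.isRotated_append)
    refine ⟨w', hw', ?_⟩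
    exact (Relation.TransGen.tail' h1 h2).trans hr
  | peek k f s ih =>
    obtain ⟨rest, hr1, ⟨j, r', hj⟩, hr3⟩ := canon_rot (G := G) hnd hall k S
    have hS : update S k (S k) = S := update_eq_self k S
    have h1 := seek (δ := dl M) (q := .run (peek k f s) v) (s := Sum.inl k)
      (m := (S k).map Sum.inr ++ rest) (w := w)
      (fun x hx => by simp only [dl, if_neg hx])
      (by simp [hr1]) (hw.trans (by have := hr3 (S k); rwa [hS] at this))
    have h2 : qstep (dl M) (.run (peek k f s) v, Sum.inl k :: ((S k).map Sum.inr ++ rest)) =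
        some (.mid (peek k f s) v, ((S k).map Sum.inr ++ rest) ++ [Sum.inl k]) := by
      simp only [qstep, dl, if_true, Option.map_some]
    have h3 : ∃ w1, w1 ~r canon ks S ∧ qstep (dl M) (.mid (peek k f s) v,
        ((S k).map Sum.inr ++ rest) ++ [Sum.inl k]) = some (.run s (f v (S k).head?), w1) := by
      have h3 := hr3 (S k)
      rw [hS] at h3
      cases hSk : S k with
      | nil =>
        refine ⟨r' ++ [Sum.inl j], ?_, ?_⟩
        · rw [hSk] at h3
          refine List.IsRotated.trans ?_ h3.symm
          have e1 : r' ++ [Sum.inl j] ~r Sum.inl j :: r' := List.isRotated_append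
          refine e1.trans ?_
          rw [← hj]
          exact List.isRotated_append
        · rw [List.map_nil, List.nil_append, hj]
          simp only [qstep, dl, Option.map_some, List.head?_nil]
      | cons g l =>
        refine ⟨(l.map Sum.inr ++ rest ++ [Sum.inl k]) ++ [Sum.inr g], ?_, ?_⟩
        · rw [hSk] at h3
          refine List.IsRotated.trans ?_ h3.symm
          have e1 : (l.map Sum.inr ++ rest ++ [Sum.inl k]) ++ [Sum.inr g] =
            (l.map Sum.inr ++ rest) ++ [Sum.inl k, Sum.inr g] := by simp
          have e2 : Sum.inl k :: ((g :: l).map Sum.inr ++ rest) =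
            [Sum.inl k, Sum.inr g] ++ (l.map Sum.inr ++ rest) := by simp
          rw [e1, e2]
          exact List.isRotated_append
        · rw [List.map_cons]
          simp only [List.cons_append, qstep, dl, Option.map_some, List.head?_cons]
    obtain ⟨w1, hw1, hs1⟩ := h3
    obtain ⟨w', hw', hr⟩ := ih (f v (S k).head?) S w1 hw1
    refine ⟨w', hw', ?_⟩
    exact ((Relation.TransGen.tail' h1 h2).tail hs1).trans hr
  | pop k f s ih =>
    obtain ⟨rest, hr1, ⟨j, r', hj⟩, hr3⟩ := canon_rot (G := G) hnd hall k S
    have hS : update S k (S k) = S := update_eq_self k S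
    have h1 := seek (δ := dl M) (q := .run (pop k f s) v) (s := Sum.inl k)
      (m := (S k).map Sum.inr ++ rest) (w := w)
      (fun x hx => by simp only [dl, if_neg hx])
      (by simp [hr1]) (hw.trans (by have := hr3 (S k); rwa [hS] at this))
    have h2 : qstep (dl M) (.run (pop k f s) v, Sum.inl k :: ((S k).map Sum.inr ++ rest)) =
        some (.mid (pop k f s) v, ((S k).map Sum.inr ++ rest) ++ [Sum.inl k]) := by
      simp only [qstep, dl, if_true, Option.map_some]
    have h3 : ∃ w1, w1 ~r canon ks (update S k (S k).tail) ∧ qstep (dl M) (.mid (pop k f s) v,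
        ((S k).map Sum.inr ++ rest) ++ [Sum.inl k]) = some (.run s (f v (S k).head?), w1) := by
      have h3 := hr3 (S k).tail
      cases hSk : S k with
      | nil =>
        refine ⟨r' ++ [Sum.inl j], ?_, ?_⟩
        · rw [hSk] at h3
          refine List.IsRotated.trans ?_ h3.symm
          have e1 : r' ++ [Sum.inl j] ~r Sum.inl j :: r' := List.isRotated_append
          refine e1.trans ?_
          rw [← hj]
          exact List.isRotated_append
        · rw [List.map_nil, List.nil_append, hj]
          simp only [qstep, dl, Option.map_some, List.head?_nil]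
      | cons g l =>
        refine ⟨(l.map Sum.inr ++ rest ++ [Sum.inl k]) ++ [], ?_, ?_⟩
        · rw [hSk] at h3
          refine List.IsRotated.trans ?_ h3.symm
          rw [List.append_nil]
          exact List.isRotated_append
        · rw [List.map_cons]
          simp only [List.cons_append, qstep, dl, Option.map_some, List.head?_cons]
    obtain ⟨w1, hw1, hs1⟩ := h3
    obtain ⟨w', hw', hr⟩ := ih (f v (S k).head?) (update S k (S k).tail) w1 hw1
    refine ⟨w', hw', ?_⟩
    exact ((Relation.TransGen.tail' h1 h2).tail hs1).trans hr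
  | load a s ih =>
    obtain ⟨w1, hw1, hs1⟩ := hone (q := .run (load a s) v) (q' := .run s (a v))
      (isRot_ne hw (hcn S)) (fun x => rfl)
    obtain ⟨w', hw', hr⟩ := ih (a v) S w1 (hw1.trans hw)
    exact ⟨w', hw', (r1_single hs1).trans hr⟩
  | branch p s₁ s₂ ih₁ ih₂ =>
    obtain ⟨w1, hw1, hs1⟩ := hone (q := .run (branch p s₁ s₂) v) (q' := .run (cond (p v) s₁ s₂) v)
      (isRot_ne hw (hcn S)) (fun x => rfl)
    have he : TM2.stepAux (branch p s₁ s₂) v S = cond (p v) (TM2.stepAux s₁ v S) (TM2.stepAux s₂ v S) := rfl
    rw [he]
    cases hp : p v with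
    | true =>
      rw [hp] at hs1
      obtain ⟨w', hw', hr⟩ := ih₁ v S w1 (hw1.trans hw)
      exact ⟨w', hw', (r1_single hs1).trans hr⟩
    | false =>
      rw [hp] at hs1
      obtain ⟨w', hw', hr⟩ := ih₂ v S w1 (hw1.trans hw)
      exact ⟨w', hw', (r1_single hs1).trans hr⟩
  | goto l =>
    obtain ⟨w1, hw1, hs1⟩ := hone (q := .run (goto l) v) (q' := .run (M (l v)) v)
      (isRot_ne hw (hcn S)) (fun x => rfl)
    exact ⟨w1, hw1.trans hw, Relation.TransGen.single hs1⟩
  | halt =>
    obtain ⟨w1, hw1, hs1⟩ := hone (q := .run halt v) (q' := .done)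
      (isRot_ne hw (hcn S)) (fun x => rfl)
    exact ⟨w1, hw1.trans hw, Relation.TransGen.single hs1⟩

include hnd hall hks in
theorem sim_dom (M : Λ → St K G Λ σ) (l : Λ) (v : σ) (S : K → List G) :
    (eval (qstep (dl M)) (.run (M l) v, canon ks S)).Dom ↔
      (eval (TM2.step M) ⟨some l, v, S⟩).Dom := by
  have hresp : Respects (TM2.step M) (qstep (dl M)) (fun a b => b.2 ~r canon ks a.stk ∧
      b.1 = match a.l with
        | some l => .run (M l) a.var
        | none => .done) := by
    rintro ⟨l, v, S⟩ ⟨q, w⟩ ⟨hw, hq⟩
    cases l with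
    | none =>
      simp only [] at hq
      subst hq
      show qstep (dl M) (.done, w) = none
      cases w with
      | nil => rfl
      | cons x w => rfl
    | some l =>
      simp only [] at hq
      subst hq
      obtain ⟨w', hw', hr⟩ := sim_aux hnd hall hks M (M l) v S w hw
      exact ⟨_, ⟨hw', rfl⟩, hr⟩
  exact tr_eval_dom hresp (a₁ := ⟨some l, v, S⟩) (a₂ := (.run (M l) v, canon ks S))
    ⟨List.IsRotated.refl _, rfl⟩

theorem dl_inl (M : Λ → St K G Λ σ) (k : K) (q : QS K G Λ σ) (v : List (K ⊕ G)) (q' : QS K G Λ σ)
    (h : dl M q (Sum.inl k) = some (v, q')) : Sum.inl k ∈ v := by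
  cases q with
  | run s u =>
    cases s with
    | push j f s =>
      simp only [dl] at h
      split_ifs at h with hk
      · simp only [Option.some.injEq, Prod.mk.injEq] at h
        rw [← h.1]; simp only [hk]; simp
      · simp only [Option.some.injEq, Prod.mk.injEq] at h
        rw [← h.1]; simp
    | peek j f s =>
      simp only [dl] at h
      split_ifs at h with hk
      · simp only [Option.some.injEq, Prod.mk.injEq] at h
        rw [← h.1]; simp only [hk]; simp
      · simp only [Option.some.injEq, Prod.mk.injEq] at h
        rw [← h.1]; simp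
    | pop j f s =>
      simp only [dl] at h
      split_ifs at h with hk
      · simp only [Option.some.injEq, Prod.mk.injEq] at h
        rw [← h.1]; simp only [hk]; simp
      · simp only [Option.some.injEq, Prod.mk.injEq] at h
        rw [← h.1]; simp
    | load a s =>
      simp only [dl, Option.some.injEq, Prod.mk.injEq] at h; rw [← h.1]; simp
    | branch p s₁ s₂ =>
      simp only [dl, Option.some.injEq, Prod.mk.injEq] at h; rw [← h.1]; simp
    | goto l =>
      simp only [dl, Option.some.injEq, Prod.mk.injEq] at h; rw [← h.1]; simp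
    | halt =>
      simp only [dl, Option.some.injEq, Prod.mk.injEq] at h; rw [← h.1]; simp
  | mid s u =>
    cases s with
    | peek j f s =>
      simp only [dl, Option.some.injEq, Prod.mk.injEq] at h; rw [← h.1]; simp
    | pop j f s =>
      simp only [dl, Option.some.injEq, Prod.mk.injEq] at h; rw [← h.1]; simp
    | push j f s => simp [dl] at h
    | load a s => simp [dl] at h
    | branch p s₁ s₂ => simp [dl] at h
    | goto l => simp [dl] at h
    | halt => simp [dl] at h
  | done => simp [dl] at h

/-- the closed set of states generated by a set of statements -/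
def FS (T : St K G Λ σ → Prop) : QS K G Λ σ → Prop
  | .run s _ => T s
  | .mid s _ => T s
  | .done => True

omit [DecidableEq K] [DecidableEq G] in
theorem FS_finite [Finite σ] {T : St K G Λ σ → Prop} (hT : Finite {s // T s}) :
    Finite {q // FS T q} := by
  let f : {q // FS T q} → Option (({s // T s} × σ) ⊕ ({s // T s} × σ)) := fun q =>
    match q with
    | ⟨.run s v, h⟩ => some (Sum.inl (⟨s, h⟩, v))
    | ⟨.mid s v, h⟩ => some (Sum.inr (⟨s, h⟩, v))
    | ⟨.done, _⟩ => none
  apply Finite.of_injective f
  rintro ⟨q, hq⟩ ⟨q', hq'⟩ h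
  cases q <;> cases q' <;> simp_all [f]

theorem FS_closed (M : Λ → St K G Λ σ) {S : Finset Λ} (hS : ∀ l ∈ S, TM2.SupportsStmt S (M l))
    {q q' : QS K G Λ σ} {x : K ⊕ G} {v : List (K ⊕ G)}
    (hq : FS (fun s => ∃ l ∈ S, s ∈ TM2.stmts₁ (M l)) q) (h : dl M q x = some (v, q')) :
    FS (fun s => ∃ l ∈ S, s ∈ TM2.stmts₁ (M l)) q' := by
  classical
  have hsub : ∀ {s s' : St K G Λ σ}, (∃ l ∈ S, s ∈ TM2.stmts₁ (M l)) → s' ∈ TM2.stmts₁ s →
      ∃ l ∈ S, s' ∈ TM2.stmts₁ (M l) := by
    rintro s s' ⟨l, hl, hs⟩ hs'
    exact ⟨l, hl, TM2.stmts₁_trans hs hs'⟩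
  cases q with
  | run s u =>
    cases s with
    | push j f s =>
      have hT := hsub (s' := s) hq (by simp [TM2.stmts₁, TM2.stmts₁_self])
      simp only [dl] at h
      split_ifs at h with hk
      · simp only [Option.some.injEq, Prod.mk.injEq] at h
        rw [← h.2]; exact hT
      · simp only [Option.some.injEq, Prod.mk.injEq] at h
        rw [← h.2]; exact hq
    | peek j f s =>
      simp only [dl] at h
      split_ifs at h with hk
      · simp only [Option.some.injEq, Prod.mk.injEq] at h
        rw [← h.2]; exact hq
      · simp only [Option.some.injEq, Prod.mk.injEq] at h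
        rw [← h.2]; exact hq
    | pop j f s =>
      simp only [dl] at h
      split_ifs at h with hk
      · simp only [Option.some.injEq, Prod.mk.injEq] at h
        rw [← h.2]; exact hq
      · simp only [Option.some.injEq, Prod.mk.injEq] at h
        rw [← h.2]; exact hq
    | load a s =>
      have hT := hsub (s' := s) hq (by simp [TM2.stmts₁, TM2.stmts₁_self])
      simp only [dl, Option.some.injEq, Prod.mk.injEq] at h
      rw [← h.2]; exact hT
    | branch p s₁ s₂ =>
      have hT₁ := hsub (s' := s₁) hq (by simp [TM2.stmts₁, TM2.stmts₁_self])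
      have hT₂ := hsub (s' := s₂) hq (by simp [TM2.stmts₁, TM2.stmts₁_self])
      simp only [dl, Option.some.injEq, Prod.mk.injEq] at h
      rw [← h.2]
      cases p u
      · exact hT₂
      · exact hT₁
    | goto l =>
      simp only [dl, Option.some.injEq, Prod.mk.injEq] at h
      rw [← h.2]
      obtain ⟨l', hl', hs⟩ := hq
      have h1 := TM2.stmts₁_supportsStmt_mono hs (hS l' hl')
      exact ⟨l u, h1 u, TM2.stmts₁_self⟩
    | halt =>
      simp only [dl, Option.some.injEq, Prod.mk.injEq] at h
      rw [← h.2]; trivial
  | mid s u =>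
    cases s with
    | peek j f s =>
      have hT := hsub (s' := s) hq (by simp [TM2.stmts₁, TM2.stmts₁_self])
      cases x with
      | inl k =>
        simp only [dl, Option.some.injEq, Prod.mk.injEq] at h
        rw [← h.2]; exact hT
      | inr g =>
        simp only [dl, Option.some.injEq, Prod.mk.injEq] at h
        rw [← h.2]; exact hT
    | pop j f s =>
      have hT := hsub (s' := s) hq (by simp [TM2.stmts₁, TM2.stmts₁_self])
      cases x with
      | inl k =>
        simp only [dl, Option.some.injEq, Prod.mk.injEq] at h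
        rw [← h.2]; exact hT
      | inr g =>
        simp only [dl, Option.some.injEq, Prod.mk.injEq] at h
        rw [← h.2]; exact hT
    | push j f s => simp [dl] at h
    | load a s => simp [dl] at h
    | branch p s₁ s₂ => simp [dl] at h
    | goto l => simp [dl] at h
    | halt => simp [dl] at h
  | done => simp [dl] at h

omit [DecidableEq K] [DecidableEq G] in
theorem T_finite (M : Λ → St K G Λ σ) (S : Finset Λ) :
    Finite {s // ∃ l ∈ S, s ∈ TM2.stmts₁ (M l)} := by
  classical
  have : {s | ∃ l ∈ S, s ∈ TM2.stmts₁ (M l)} = ↑(S.biUnion fun l => TM2.stmts₁ (M l)) := by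
    ext s; simp
  have h : Set.Finite {s | ∃ l ∈ S, s ∈ TM2.stmts₁ (M l)} := by
    rw [this]; exact Finset.finite_toSet _
  exact h

end sim

end Pool.Agent.Helper94.UEC
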